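import Mathlib.Topology.Sheaves.Presheaf
import Mathlib.Analysis.InnerProductSpace.PiL2
import Mathlib.Tactic.Algebra.Basic

set_option autoImplicit false

namespace Pool.Agent.MP_361b6b_co

open Set

/-- The Euclidean plane. -/
abbrev E := EuclideanSpace ℝ (Fin 2)

/-- First coordinate with respect to the basis `(1,0)`, `(1/2, √3/2)`. -/
noncomputable def cs (p : E) : ℝ := p 0 - p 1 / √3
/-- Second coordinate with respect to the basis `(1,0)`, `(1/2, √3/2)`. -/
noncomputable def ct (p : E) : ℝ := 2 * p 1 / √3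
/-- The point with the given triangular coordinates. -/
noncomputable def pt (s t : ℝ) : E := !₂[s + t / 2, √3 / 2 * t]

theorem sqrt3_ne : (√3 : ℝ) ≠ 0 := by positivity
theorem sqrt3_sq : (√3 : ℝ) ^ 2 = 3 := Real.sq_sqrt (by norm_num)

@[simp] theorem cs_pt (s t : ℝ) : cs (pt s t) = s := by
  have := sqrt3_ne
  simp only [cs, pt, PiLp.toLp_apply, Matrix.cons_val_zero, Matrix.cons_val_one]
  field_simp
  ring

@[simp] theorem ct_pt (s t : ℝ) : ct (pt s t) = t := by
  have := sqrt3_ne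
  simp only [ct, pt, PiLp.toLp_apply, Matrix.cons_val_zero, Matrix.cons_val_one]
  field_simp

theorem ext_c {p q : E} (h1 : cs p = cs q) (h2 : ct p = ct q) : p = q := by
  have := sqrt3_ne
  have e1 : p 1 = q 1 := by
    simp only [ct] at h2
    field_simp at h2
    linarith
  have e0 : p 0 = q 0 := by
    simp only [cs, e1] at h1
    linarith
  ext i
  fin_cases i
  · exact e0
  · exact e1

@[simp] theorem cs_add (p q : E) : cs (p + q) = cs p + cs q := by
  simp only [cs, PiLp.add_apply]; ring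
@[simp] theorem ct_add (p q : E) : ct (p + q) = ct p + ct q := by
  simp only [ct, PiLp.add_apply]; ring
@[simp] theorem cs_sub (p q : E) : cs (p - q) = cs p - cs q := by
  simp only [cs, PiLp.sub_apply]; ring
@[simp] theorem ct_sub (p q : E) : ct (p - q) = ct p - ct q := by
  simp only [ct, PiLp.sub_apply]; ring
@[simp] theorem cs_smul (c : ℝ) (p : E) : cs (c • p) = c * cs p := by
  simp only [cs, PiLp.smul_apply, smul_eq_mul]; ring
@[simp] theorem ct_smul (c : ℝ) (p : E) : ct (c • p) = c * ct p := by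
  simp only [ct, PiLp.smul_apply, smul_eq_mul]; ring
@[simp] theorem cs_zero : cs 0 = 0 := by simp [cs]
@[simp] theorem ct_zero : ct 0 = 0 := by simp [ct]

@[fun_prop] theorem continuous_cs : Continuous cs := by unfold cs; fun_prop
@[fun_prop] theorem continuous_ct : Continuous ct := by unfold ct; fun_prop

theorem pt_eq (s t : ℝ) : pt s t = s • pt 1 0 + t • pt 0 1 := by
  apply ext_c <;> simp

theorem norm_sq_eq (p : E) : ‖p‖ ^ 2 = cs p ^ 2 + cs p * ct p + ct p ^ 2 := by
  have h := sqrt3_ne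
  have h3 := sqrt3_sq
  rw [EuclideanSpace.norm_sq_eq, Fin.sum_univ_two]
  simp only [cs, ct, Real.norm_eq_abs, sq_abs]
  field_simp
  ring_nf
  rw [h3]

theorem dist_sq_eq (p q : E) : dist p q ^ 2 =
    (cs p - cs q) ^ 2 + (cs p - cs q) * (ct p - ct q) + (ct p - ct q) ^ 2 := by
  rw [dist_eq_norm, norm_sq_eq, cs_sub, ct_sub]

theorem dist_eq_of_sq {p q p' q' : E} (h : dist p q ^ 2 = dist p' q' ^ 2) :
    dist p q = dist p' q' :=
  (sq_eq_sq₀ dist_nonneg dist_nonneg).mp h

/-- Rotation by 60 degrees. -/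
noncomputable def rho : E ≃ᵢ E where
  toFun p := pt (-ct p) (cs p + ct p)
  invFun p := pt (cs p + ct p) (-cs p)
  left_inv p := by apply ext_c <;> simp
  right_inv p := by apply ext_c <;> simp
  isometry_toFun := Isometry.of_dist_eq fun p q => dist_eq_of_sq (by
    simp only [dist_sq_eq, cs_pt, ct_pt]; ring)

@[simp] theorem cs_rho (p : E) : cs (rho p) = -ct p := cs_pt _ _
@[simp] theorem ct_rho (p : E) : ct (rho p) = cs p + ct p := ct_pt _ _

/-- A linear functional takes values strictly inside an interval on the interior of a set on which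
it takes values in the closed interval. -/
theorem strict_of_interior {S : Set E} (α β a b : ℝ) (hne : α ≠ 0 ∨ β ≠ 0)
    (hS : ∀ p ∈ S, a ≤ α * cs p + β * ct p ∧ α * cs p + β * ct p ≤ b) {p : E}
    (hp : p ∈ interior S) : a < α * cs p + β * ct p ∧ α * cs p + β * ct p < b := by
  have hpos : 0 < α ^ 2 + β ^ 2 := by
    rcases hne with h | h <;> positivity
  have hc : Continuous fun x : ℝ => p + x • pt α β := by fun_prop
  have h0 : (fun x : ℝ => p + x • pt α β) ⁻¹' interior S ∈ nhds (0 : ℝ) := by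
    apply hc.continuousAt.preimage_mem_nhds
    simpa using isOpen_interior.mem_nhds hp
  obtain ⟨ε, hε, hb⟩ := Metric.mem_nhds_iff.mp h0
  have h1 : p + (ε / 2) • pt α β ∈ S := interior_subset (hb (by
    simp only [Metric.mem_ball, dist_zero_right, Real.norm_eq_abs]
    rw [abs_lt]; constructor <;> linarith))
  have h2 : p + (-(ε / 2)) • pt α β ∈ S := interior_subset (hb (by
    simp only [Metric.mem_ball, dist_zero_right, Real.norm_eq_abs]
    rw [abs_lt]; constructor <;> linarith))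
  have h1' := (hS _ h1).2
  have h2' := (hS _ h2).1
  simp only [cs_add, ct_add, cs_smul, ct_smul, cs_pt, ct_pt] at h1' h2'
  have := mul_pos hε hpos
  constructor <;> nlinarith

/-- The clamp of a real number to `[0,1]`. -/
noncomputable def cl (x : ℝ) : ℝ := max 0 (min 1 x)

/-- A polygonal path through `P 0, P 1, …` whose half-open edges are pairwise disjoint and
nondegenerate and which goes to infinity is a simple curve going to infinity. -/
theorem polygonal_ray (P : ℕ → E)
    (hinj : ∀ (i j : ℕ) (a b : ℝ), 0 ≤ a → a < 1 → 0 ≤ b → b < 1 →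
      P i + a • (P (i + 1) - P i) = P j + b • (P (j + 1) - P j) → i = j ∧ a = b)
    (hinf : ∀ R : ℝ, ∃ N : ℕ, ∀ i, N ≤ i → ∀ a : ℝ, 0 ≤ a → a ≤ 1 →
      R ≤ ‖P i + a • (P (i + 1) - P i)‖) :
    ∃ γ : NNReal → E, Continuous γ ∧ Function.Injective γ ∧
      range γ = {p | ∃ (i : ℕ) (a : ℝ), 0 ≤ a ∧ a ≤ 1 ∧ p = P i + a • (P (i + 1) - P i)} ∧
      Filter.Tendsto (fun t => ‖γ t‖) Filter.atTop Filter.atTop := by
  let G : ℕ → ℝ → E := fun N x => P 0 + ∑ i ∈ Finset.range N, cl (x - i) • (P (i + 1) - P i)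
  have hG : ∀ N, Continuous (G N) := by
    intro N
    simp only [G, cl]
    fun_prop
  have hval : ∀ (N i : ℕ) (a : ℝ), i < N → 0 ≤ a → a ≤ 1 →
      G N (i + a) = P i + a • (P (i + 1) - P i) := by
    intro N i a hi ha0 ha1
    obtain ⟨m, rfl⟩ := Nat.exists_eq_add_of_lt hi
    simp only [G]
    rw [show i + m + 1 = (i + 1) + m by ring, Finset.sum_range_add, Finset.sum_range_succ]
    have e1 : ∑ k ∈ Finset.range i, cl ((i : ℝ) + a - k) • (P (k + 1) - P k) = P i - P 0 := by
      rw [← Finset.sum_range_sub]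
      refine Finset.sum_congr rfl fun k hk => ?_
      have hk' : (k : ℝ) + 1 ≤ i := by exact_mod_cast Finset.mem_range.mp hk
      have : cl ((i : ℝ) + a - k) = 1 := by
        unfold cl
        rw [min_eq_left (by linarith), max_eq_right zero_le_one]
      rw [this, one_smul]
    have e2 : cl ((i : ℝ) + a - i) = a := by
      unfold cl
      rw [add_sub_cancel_left, min_eq_right ha1, max_eq_right ha0]
    have e3 : ∑ k ∈ Finset.range m,
        cl ((i : ℝ) + a - ((i + 1 + k : ℕ) : ℝ)) • (P (i + 1 + k + 1) - P (i + 1 + k)) = 0 := by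
      refine Finset.sum_eq_zero fun k _ => ?_
      have hk : (0 : ℝ) ≤ k := Nat.cast_nonneg k
      have : cl ((i : ℝ) + a - ((i + 1 + k : ℕ) : ℝ)) = 0 := by
        unfold cl
        push_cast
        rw [max_eq_left]
        exact le_trans (min_le_right _ _) (by linarith)
      rw [this, zero_smul]
    rw [e1, e2, e3]
    abel
  let γ : NNReal → E := fun x => P ⌊(x : ℝ)⌋₊ + ((x : ℝ) - ⌊(x : ℝ)⌋₊) •
    (P (⌊(x : ℝ)⌋₊ + 1) - P ⌊(x : ℝ)⌋₊)
  have hf0 : ∀ x : NNReal, 0 ≤ (x : ℝ) - ⌊(x : ℝ)⌋₊ := fun x =>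
    sub_nonneg.mpr (Nat.floor_le x.2)
  have hf1 : ∀ x : NNReal, (x : ℝ) - ⌊(x : ℝ)⌋₊ < 1 := fun x => by
    have := Nat.lt_floor_add_one (x : ℝ)
    linarith
  have hγ : ∀ (N : ℕ) (x : NNReal), (x : ℝ) < N → γ x = G N x := by
    intro N x hx
    have := hval N ⌊(x : ℝ)⌋₊ _ ((Nat.floor_lt x.2).mpr hx) (hf0 x) (hf1 x).le
    simp only [γ]
    rw [← this]
    congr 1
    ring
  refine ⟨γ, ?_, ?_, ?_, ?_⟩
  · rw [continuous_iff_continuousAt]
    intro x
    have hc : ContinuousAt (fun y : NNReal => G (⌊(x : ℝ)⌋₊ + 1) y) x :=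
      ((hG _).comp NNReal.continuous_coe).continuousAt
    refine hc.congr ?_
    have ho : IsOpen {y : NNReal | (y : ℝ) < ((⌊(x : ℝ)⌋₊ + 1 : ℕ) : ℝ)} :=
      isOpen_lt NNReal.continuous_coe continuous_const
    have hx : x ∈ {y : NNReal | (y : ℝ) < ((⌊(x : ℝ)⌋₊ + 1 : ℕ) : ℝ)} := by
      have := Nat.lt_floor_add_one (x : ℝ)
      simpa using this
    filter_upwards [ho.mem_nhds hx] with y hy
    exact (hγ _ y hy).symm
  · intro x y hxy
    obtain ⟨h1, h2⟩ := hinj _ _ _ _ (hf0 x) (hf1 x) (hf0 y) (hf1 y) hxy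
    rw [h1] at h2
    apply NNReal.eq
    linarith
  · ext p
    constructor
    · rintro ⟨x, rfl⟩
      exact ⟨_, _, hf0 x, (hf1 x).le, rfl⟩
    · rintro ⟨i, a, ha0, ha1, rfl⟩
      refine ⟨⟨i + a, by positivity⟩, ?_⟩
      rw [hγ (i + 2) _ (by change (i : ℝ) + a < ((i + 2 : ℕ) : ℝ); push_cast; linarith)]
      exact hval (i + 2) i a (by omega) ha0 ha1
  · rw [Filter.tendsto_atTop_atTop]
    intro R
    obtain ⟨N, hN⟩ := hinf R
    refine ⟨N, fun x hx => hN _ ?_ _ (hf0 x) (hf1 x).le⟩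
    apply Nat.le_floor
    exact_mod_cast hx

end Pool.Agent.MP_361b6b_co
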