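import Mathlib.Algebra.Order.Ring.Star
import Mathlib.Algebra.Order.Star.Real
import Mathlib.Order.CompletePartialOrder
import Pool.Agent.MP_361b6b_co.Coords

set_option autoImplicit false

namespace Pool.Agent.MP_361b6b_co

open Set

/-- Upper half hexagon of size `n` centred at `(1,0)`. -/
def U (n s t : ℝ) : Prop :=
  (s = 1 - n ∧ 0 ≤ t ∧ t ≤ n) ∨ (t = n ∧ 1 - n ≤ s ∧ s ≤ 1) ∨ (s + t = n + 1 ∧ 1 ≤ s ∧ s ≤ n + 1)

/-- Lower half hexagon of size `n` centred at `(0,0)`. -/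
def Lw (n s t : ℝ) : Prop :=
  (s = n ∧ -n ≤ t ∧ t ≤ 0) ∨ (t = -n ∧ 0 ≤ s ∧ s ≤ n) ∨ (s + t = -n ∧ -n ≤ s ∧ s ≤ 0)

/-- The first arm. -/
def CA : Set E := {p | ∃ q : ℕ, U (2 * q + 1) (cs p) (ct p) ∨ Lw (2 * q + 2) (cs p) (ct p)}

/-- The second arm. -/
def CB : Set E := {p | ∃ q : ℕ, Lw (2 * q + 1) (cs p) (ct p) ∨ U (2 * q + 2) (cs p) (ct p)}

theorem disjoint_CA_CB : Disjoint CA CB := by
  rw [Set.disjoint_left]
  rintro p ⟨q, hq⟩ ⟨r, hr⟩
  have hq0 : (0 : ℝ) ≤ q := Nat.cast_nonneg q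
  have hr0 : (0 : ℝ) ≤ r := Nat.cast_nonneg r
  have htri : (q : ℝ) + 1 ≤ r ∨ (q : ℝ) = r ∨ (r : ℝ) + 1 ≤ q := by
    rcases lt_trichotomy q r with h | h | h
    · left; exact_mod_cast h
    · right; left; exact_mod_cast h
    · right; right; exact_mod_cast h
  simp only [U, Lw] at hq hr
  rcases hq with (⟨h1, h2, h3⟩ | ⟨h1, h2, h3⟩ | ⟨h1, h2, h3⟩) |
      (⟨h1, h2, h3⟩ | ⟨h1, h2, h3⟩ | ⟨h1, h2, h3⟩) <;>
    rcases hr with (⟨g1, g2, g3⟩ | ⟨g1, g2, g3⟩ | ⟨g1, g2, g3⟩) |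
      (⟨g1, g2, g3⟩ | ⟨g1, g2, g3⟩ | ⟨g1, g2, g3⟩) <;>
    rcases htri with h | h | h <;> linarith

/-- Vertices of the first arm, in blocks of six. -/
noncomputable def vA (q : ℝ) : ℕ → E
  | 0 => pt (-2 * q) 0
  | 1 => pt (-2 * q) (2 * q + 1)
  | 2 => pt 1 (2 * q + 1)
  | 3 => pt (2 * q + 2) 0
  | 4 => pt (2 * q + 2) (-(2 * q + 2))
  | 5 => pt 0 (-(2 * q + 2))
  | _ => pt (-2 * (q + 1)) 0

/-- Vertices of the first arm. -/
noncomputable def PA (i : ℕ) : E := vA ((i / 6 : ℕ) : ℝ) (i % 6)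

theorem PA_eq (q r : ℕ) (hr : r < 6) : PA (6 * q + r) = vA q r := by
  unfold PA
  rw [show (6 * q + r) / 6 = q by omega, show (6 * q + r) % 6 = r by omega]

theorem PA_succ (q r : ℕ) (hr : r < 6) : PA (6 * q + r + 1) = vA q (r + 1) := by
  rcases Nat.lt_or_ge r 5 with h | h
  · rw [add_assoc, PA_eq q (r + 1) (by omega)]
  · obtain rfl : r = 5 := by omega
    rw [show 6 * q + 5 + 1 = 6 * (q + 1) + 0 by ring, PA_eq _ 0 (by omega)]
    simp [vA]

/-- Linear description of the point with parameter `a` on the edge `6 q + r`. -/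
theorem edge_coords (q r : ℕ) (hr : r < 6) (a : ℝ) (p : E)
    (hp : p = PA (6 * q + r) + a • (PA (6 * q + r + 1) - PA (6 * q + r))) :
    (r = 0 ∧ cs p = -2 * q ∧ ct p = a * (2 * q + 1)) ∨
    (r = 1 ∧ cs p = -2 * q + a * (2 * q + 1) ∧ ct p = 2 * q + 1) ∨
    (r = 2 ∧ cs p = 1 + a * (2 * q + 1) ∧ ct p = 2 * q + 1 - a * (2 * q + 1)) ∨
    (r = 3 ∧ cs p = 2 * q + 2 ∧ ct p = - (a * (2 * q + 2))) ∨
    (r = 4 ∧ cs p = 2 * q + 2 - a * (2 * q + 2) ∧ ct p = - (2 * q + 2)) ∨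
    (r = 5 ∧ cs p = - (a * (2 * q + 2)) ∧ ct p = - (2 * q + 2) + a * (2 * q + 2)) := by
  rw [PA_succ q r hr, PA_eq q r hr] at hp
  subst hp
  interval_cases r <;> simp [vA] <;> (try constructor) <;> ring_nf <;> simp

theorem exists_ray_CA : ∃ γ : NNReal → E, Continuous γ ∧ Function.Injective γ ∧
    range γ = CA ∧ Filter.Tendsto (fun t => ‖γ t‖) Filter.atTop Filter.atTop := by
  obtain ⟨γ, h1, h2, h3, h4⟩ := polygonal_ray PA (by
    intro i j a b ha0 ha1 hb0 hb1 h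
    obtain ⟨q, r, hr, rfl⟩ : ∃ q r, r < 6 ∧ i = 6 * q + r :=
      ⟨i / 6, i % 6, Nat.mod_lt _ (by norm_num), by omega⟩
    obtain ⟨q', r', hr', rfl⟩ : ∃ q r, r < 6 ∧ j = 6 * q + r :=
      ⟨j / 6, j % 6, Nat.mod_lt _ (by norm_num), by omega⟩
    have e1 := edge_coords q r hr a _ rfl
    have e2 := edge_coords q' r' hr' b _ h
    have hq0 : (0 : ℝ) ≤ q := Nat.cast_nonneg q
    have hq0' : (0 : ℝ) ≤ q' := Nat.cast_nonneg q'
    have a1 : 0 ≤ a * (2 * q + 1) := by positivity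
    have a2 : a * (2 * q + 1) < 2 * q + 1 := by nlinarith
    have a3 : 0 ≤ a * (2 * q + 2) := by positivity
    have a4 : a * (2 * q + 2) < 2 * q + 2 := by nlinarith
    have b1 : 0 ≤ b * (2 * q' + 1) := by positivity
    have b2 : b * (2 * q' + 1) < 2 * q' + 1 := by nlinarith
    have b3 : 0 ≤ b * (2 * q' + 2) := by positivity
    have b4 : b * (2 * q' + 2) < 2 * q' + 2 := by nlinarith
    have key : (q : ℝ) = q' → r = r' → (a * (2 * q + 1) = b * (2 * q' + 1) ∨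
        a * (2 * q + 2) = b * (2 * q' + 2)) → 6 * q + r = 6 * q' + r' ∧ a = b := by
      intro hq hrr hab
      have hq' : q = q' := by exact_mod_cast hq
      subst hq' hrr
      refine ⟨rfl, ?_⟩
      rcases hab with hab | hab
      · exact mul_right_cancel₀ (by positivity) hab
      · exact mul_right_cancel₀ (by positivity) hab
    generalize PA (6 * q + r) + a • (PA (6 * q + r + 1) - PA (6 * q + r)) = p at e1 e2
    rcases e1 with ⟨rfl, u1, u2⟩ | ⟨rfl, u1, u2⟩ | ⟨rfl, u1, u2⟩ | ⟨rfl, u1, u2⟩ | ⟨rfl, u1, u2⟩ |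
        ⟨rfl, u1, u2⟩ <;>
      rcases e2 with ⟨rfl, v1, v2⟩ | ⟨rfl, v1, v2⟩ | ⟨rfl, v1, v2⟩ | ⟨rfl, v1, v2⟩ | ⟨rfl, v1, v2⟩ |
        ⟨rfl, v1, v2⟩ <;>
      first
        | (exfalso; linarith)
        | exact key (by linarith) rfl (Or.inl (by linarith))
        | exact key (by linarith) rfl (Or.inr (by linarith))) (by
    intro R
    obtain ⟨N, hN⟩ := exists_nat_ge R
    refine ⟨6 * N, fun i hi a ha0 ha1 => ?_⟩
    obtain ⟨q, r, hr, rfl⟩ : ∃ q r, r < 6 ∧ i = 6 * q + r :=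
      ⟨i / 6, i % 6, Nat.mod_lt _ (by norm_num), by omega⟩
    have e1 := edge_coords q r hr a _ rfl
    generalize PA (6 * q + r) + a • (PA (6 * q + r + 1) - PA (6 * q + r)) = p at e1
    have hq : (N : ℝ) ≤ q := by exact_mod_cast (show N ≤ q by omega)
    have hq0 : (0 : ℝ) ≤ q := Nat.cast_nonneg q
    have hn := norm_sq_eq p
    have hp : (q : ℝ) ^ 2 ≤ ‖p‖ ^ 2 := by
      rw [hn]
      rcases e1 with ⟨-, u1, u2⟩ | ⟨-, u1, u2⟩ | ⟨-, u1, u2⟩ | ⟨-, u1, u2⟩ | ⟨-, u1, u2⟩ |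
        ⟨-, u1, u2⟩
      · nlinarith [sq_nonneg (cs p + 2 * ct p)]
      · nlinarith [sq_nonneg (2 * cs p + ct p)]
      · have : cs p + ct p = 2 * q + 2 := by linarith
        nlinarith [sq_nonneg (cs p - ct p)]
      · nlinarith [sq_nonneg (cs p + 2 * ct p)]
      · nlinarith [sq_nonneg (2 * cs p + ct p)]
      · have : cs p + ct p = -(2 * q + 2) := by linarith
        nlinarith [sq_nonneg (cs p - ct p)]
    have := abs_le_of_sq_le_sq' hp (norm_nonneg p)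
    linarith [this.2])
  refine ⟨γ, h1, h2, ?_, h4⟩
  rw [h3]
  ext p
  constructor
  · rintro ⟨i, a, ha0, ha1, h⟩
    obtain ⟨q, r, hr, rfl⟩ : ∃ q r, r < 6 ∧ i = 6 * q + r :=
      ⟨i / 6, i % 6, Nat.mod_lt _ (by norm_num), by omega⟩
    have e1 := edge_coords q r hr a _ h
    have hq0 : (0 : ℝ) ≤ q := Nat.cast_nonneg q
    have a1 : 0 ≤ a * (2 * q + 1) := by positivity
    have a2 : a * (2 * q + 1) ≤ 2 * q + 1 := by nlinarith
    have a3 : 0 ≤ a * (2 * q + 2) := by positivity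
    have a4 : a * (2 * q + 2) ≤ 2 * q + 2 := by nlinarith
    refine ⟨q, ?_⟩
    simp only [U, Lw]
    rcases e1 with ⟨-, u1, u2⟩ | ⟨-, u1, u2⟩ | ⟨-, u1, u2⟩ | ⟨-, u1, u2⟩ | ⟨-, u1, u2⟩ |
        ⟨-, u1, u2⟩
    · exact Or.inl (Or.inl ⟨by linarith, by linarith, by linarith⟩)
    · exact Or.inl (Or.inr (Or.inl ⟨by linarith, by linarith, by linarith⟩))
    · exact Or.inl (Or.inr (Or.inr ⟨by linarith, by linarith, by linarith⟩))
    · exact Or.inr (Or.inl ⟨by linarith, by linarith, by linarith⟩)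
    · exact Or.inr (Or.inr (Or.inl ⟨by linarith, by linarith, by linarith⟩))
    · exact Or.inr (Or.inr (Or.inr ⟨by linarith, by linarith, by linarith⟩))
  · rintro ⟨q, hq⟩
    have hq0 : (0 : ℝ) ≤ q := Nat.cast_nonneg q
    have p1 : (0 : ℝ) < 2 * q + 1 := by positivity
    have p2 : (0 : ℝ) < 2 * q + 2 := by positivity
    have mk : ∀ (r : ℕ) (a : ℝ), r < 6 → 0 ≤ a → a ≤ 1 →
        p = vA q r + a • (vA q (r + 1) - vA q r) →
        p ∈ {p | ∃ (i : ℕ) (a : ℝ), 0 ≤ a ∧ a ≤ 1 ∧ p = PA i + a • (PA (i + 1) - PA i)} := by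
      intro r a hr ha0 ha1 h
      exact ⟨6 * q + r, a, ha0, ha1, by rw [PA_succ q r hr, PA_eq q r hr]; exact h⟩
    simp only [U, Lw] at hq
    rcases hq with (⟨h1, h2, h3⟩ | ⟨h1, h2, h3⟩ | ⟨h1, h2, h3⟩) |
      (⟨h1, h2, h3⟩ | ⟨h1, h2, h3⟩ | ⟨h1, h2, h3⟩)
    · refine mk 0 (ct p / (2 * q + 1)) (by norm_num) (by positivity)
        ((div_le_one p1).mpr h3) (ext_c ?_ ?_) <;> simp [vA]
      · linarith
      · field_simp
    · refine mk 1 ((cs p + 2 * q) / (2 * q + 1)) (by norm_num)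
        (div_nonneg (by linarith) p1.le)
        ((div_le_one p1).mpr (by linarith)) (ext_c ?_ ?_) <;> simp [vA]
      · field_simp; ring
      · linarith
    · refine mk 2 ((cs p - 1) / (2 * q + 1)) (by norm_num)
        (div_nonneg (by linarith) p1.le)
        ((div_le_one p1).mpr (by linarith)) (ext_c ?_ ?_) <;> simp [vA]
      · field_simp; ring
      · have : ct p = 2 * q + 2 - cs p := by linarith
        rw [this]; field_simp; ring
    · refine mk 3 ((-ct p) / (2 * q + 2)) (by norm_num)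
        (div_nonneg (by linarith) p2.le)
        ((div_le_one p2).mpr (by linarith)) (ext_c ?_ ?_) <;> simp [vA]
      · linarith
      · field_simp; ring
    · refine mk 4 ((2 * q + 2 - cs p) / (2 * q + 2)) (by norm_num)
        (div_nonneg (by linarith) p2.le)
        ((div_le_one p2).mpr (by linarith)) (ext_c ?_ ?_) <;> simp [vA]
      · field_simp; ring
      · linarith
    · refine mk 5 ((-cs p) / (2 * q + 2)) (by norm_num)
        (div_nonneg (by linarith) p2.le)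
        ((div_le_one p2).mpr (by linarith)) (ext_c ?_ ?_) <;> simp [vA]
      · field_simp
      · field_simp; linarith

/-- The half turn exchanging the two arms. -/
noncomputable def sw (p : E) : E := pt 1 0 - p

theorem exists_ray_CB : ∃ γ : NNReal → E, Continuous γ ∧ Function.Injective γ ∧
    range γ = CB ∧ Filter.Tendsto (fun t => ‖γ t‖) Filter.atTop Filter.atTop := by
  obtain ⟨γ, h1, h2, h3, h4⟩ := exists_ray_CA
  have hUL : ∀ n s t : ℝ, U n (1 - s) (0 - t) ↔ Lw n s t := by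
    intro n s t
    simp only [U, Lw]
    constructor <;> rintro (⟨h1, h2, h3⟩ | ⟨h1, h2, h3⟩ | ⟨h1, h2, h3⟩)
    all_goals first
      | exact Or.inl ⟨by linarith, by linarith, by linarith⟩
      | exact Or.inr (Or.inl ⟨by linarith, by linarith, by linarith⟩)
      | exact Or.inr (Or.inr ⟨by linarith, by linarith, by linarith⟩)
  have hLU : ∀ n s t : ℝ, Lw n (1 - s) (0 - t) ↔ U n s t := by
    intro n s t
    rw [← hUL]
    simp
  have hmem : ∀ p, sw p ∈ CA ↔ p ∈ CB := by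
    intro p
    simp only [CA, CB, sw, mem_ofPred_eq, cs_sub, ct_sub, cs_pt, ct_pt, hUL, hLU]
  have hss : ∀ p, sw (sw p) = p := fun p => by simp [sw]
  refine ⟨fun t => sw (γ t), by unfold sw; fun_prop, fun x y hxy => h2 ?_, ?_, ?_⟩
  · have := congrArg sw hxy
    simpa [hss] using this
  · ext p
    rw [← hmem, ← h3]
    constructor
    · rintro ⟨x, rfl⟩
      exact ⟨x, (hss _).symm⟩
    · rintro ⟨x, hx⟩
      exact ⟨x, by simp only [hx, hss]⟩
  · refine Filter.tendsto_atTop_mono (fun t => ?_)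
      (Filter.tendsto_atTop_add_const_right _ (-‖pt 1 0‖) h4)
    have := norm_sub_norm_le (γ t) (pt 1 0)
    rw [← norm_neg (γ t - pt 1 0), neg_sub] at this
    simp only [sw]
    linarith

end Pool.Agent.MP_361b6b_co
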