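import Pool.Agent.MP_361b6b_co.Curves

set_option autoImplicit false

namespace Pool.Agent.MP_361b6b_co

open Set

/-- The rhombus with angles 60 and 120 degrees. -/
def T : Set E := {p | 0 ≤ cs p ∧ cs p ≤ 1 ∧ 0 ≤ ct p ∧ ct p ≤ 1}

/-- Its short diagonal. -/
def Dg : Set E := {p | cs p + ct p = 1 ∧ 0 ≤ cs p ∧ cs p ≤ 1}

/-- Admissible tile indices. -/
def Adm (k : Fin 3) (a b : ℤ) : Prop :=
  (k = 0 ∧ ((1 ≤ a ∧ 0 ≤ b) ∨ (a ≤ -1 ∧ b ≤ -1))) ∨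
  (k = 1 ∧ ((a ≤ 0 ∧ 1 ≤ b) ∨ (0 ≤ a ∧ b ≤ -1))) ∨
  (k = 2 ∧ ((0 ≤ a ∧ b ≤ 0) ∨ (a ≤ -1 ∧ 0 ≤ b)))

/-- The index set of the tiles. -/
def Idx : Type := {x : Fin 3 × ℤ × ℤ // Adm x.1 x.2.1 x.2.2}

instance : Countable Idx := by unfold Idx; infer_instance

/-- The placement of a tile. -/
noncomputable def place (k : Fin 3) (a b : ℝ) : E ≃ᵢ E :=
  match k with
  | 0 => IsometryEquiv.addRight (pt a b)
  | 1 => rho.trans (IsometryEquiv.addRight (pt (a + 1) (b - a - 1)))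
  | 2 => (rho.trans rho).trans (IsometryEquiv.addRight (pt (b + 1 - a) a))

theorem place0 (a b : ℝ) (p : E) : place 0 a b p = p + pt a b := rfl
theorem place1 (a b : ℝ) (p : E) : place 1 a b p = rho p + pt (a + 1) (b - a - 1) := rfl
theorem place2 (a b : ℝ) (p : E) : place 2 a b p = rho (rho p) + pt (b + 1 - a) a := rfl

theorem mem_T0 (a b : ℝ) (p : E) : p ∈ place 0 a b '' T ↔
    (a ≤ cs p ∧ cs p ≤ a + 1) ∧ (b ≤ ct p ∧ ct p ≤ b + 1) := by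
  constructor
  · rintro ⟨q, ⟨h1, h2, h3, h4⟩, rfl⟩
    simp only [place0, cs_add, ct_add, cs_pt, ct_pt]
    refine ⟨⟨?_, ?_⟩, ?_, ?_⟩ <;> linarith
  · rintro ⟨⟨h1, h2⟩, h3, h4⟩
    refine ⟨pt (cs p - a) (ct p - b), ?_, ext_c ?_ ?_⟩
    · simp only [T, mem_ofPred_eq, cs_pt, ct_pt]
      refine ⟨?_, ?_, ?_, ?_⟩ <;> linarith
    · simp [place0]
    · simp [place0]

theorem mem_T1 (a b : ℝ) (p : E) : p ∈ place 1 a b '' T ↔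
    (a ≤ cs p ∧ cs p ≤ a + 1) ∧ (b ≤ cs p + ct p ∧ cs p + ct p ≤ b + 1) := by
  constructor
  · rintro ⟨q, ⟨h1, h2, h3, h4⟩, rfl⟩
    simp only [place1, cs_add, ct_add, cs_pt, ct_pt, cs_rho, ct_rho]
    refine ⟨⟨?_, ?_⟩, ?_, ?_⟩ <;> linarith
  · rintro ⟨⟨h1, h2⟩, h3, h4⟩
    refine ⟨pt (cs p + ct p - b) (a + 1 - cs p), ?_, ext_c ?_ ?_⟩
    · simp only [T, mem_ofPred_eq, cs_pt, ct_pt]
      refine ⟨?_, ?_, ?_, ?_⟩ <;> linarith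
    · simp [place1]
    · simp only [place1, ct_add, cs_pt, ct_pt, ct_rho]; ring

theorem mem_T2 (a b : ℝ) (p : E) : p ∈ place 2 a b '' T ↔
    (a ≤ ct p ∧ ct p ≤ a + 1) ∧ (b ≤ cs p + ct p ∧ cs p + ct p ≤ b + 1) := by
  constructor
  · rintro ⟨q, ⟨h1, h2, h3, h4⟩, rfl⟩
    simp only [place2, cs_add, ct_add, cs_pt, ct_pt, cs_rho, ct_rho]
    refine ⟨⟨?_, ?_⟩, ?_, ?_⟩ <;> linarith
  · rintro ⟨⟨h1, h2⟩, h3, h4⟩
    refine ⟨pt (ct p - a) (b + 1 - cs p - ct p), ?_, ext_c ?_ ?_⟩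
    · simp only [T, mem_ofPred_eq, cs_pt, ct_pt]
      refine ⟨?_, ?_, ?_, ?_⟩ <;> linarith
    · simp only [place2, cs_add, cs_pt, ct_pt, ct_rho, cs_rho]; ring
    · simp only [place2, ct_add, cs_pt, ct_pt, ct_rho, cs_rho]; ring

theorem mem_D0 (a b : ℝ) (p : E) : p ∈ place 0 a b '' Dg ↔
    cs p + ct p = a + b + 1 ∧ a ≤ cs p ∧ cs p ≤ a + 1 := by
  constructor
  · rintro ⟨q, ⟨h1, h2, h3⟩, rfl⟩
    simp only [place0, cs_add, ct_add, cs_pt, ct_pt]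
    refine ⟨?_, ?_, ?_⟩ <;> linarith
  · rintro ⟨h1, h2, h3⟩
    refine ⟨pt (cs p - a) (ct p - b), ?_, ext_c ?_ ?_⟩
    · simp only [Dg, mem_ofPred_eq, cs_pt, ct_pt]
      refine ⟨?_, ?_, ?_⟩ <;> linarith
    · simp [place0]
    · simp [place0]

theorem mem_D1 (a b : ℝ) (p : E) : p ∈ place 1 a b '' Dg ↔
    ct p = b - a ∧ a ≤ cs p ∧ cs p ≤ a + 1 := by
  constructor
  · rintro ⟨q, ⟨h1, h2, h3⟩, rfl⟩
    simp only [place1, cs_add, ct_add, cs_pt, ct_pt, cs_rho, ct_rho]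
    refine ⟨?_, ?_, ?_⟩ <;> linarith
  · rintro ⟨h1, h2, h3⟩
    refine ⟨pt (cs p + ct p - b) (a + 1 - cs p), ?_, ext_c ?_ ?_⟩
    · simp only [Dg, mem_ofPred_eq, cs_pt, ct_pt]
      refine ⟨?_, ?_, ?_⟩ <;> linarith
    · simp [place1]
    · simp only [place1, ct_add, cs_pt, ct_pt, ct_rho]; ring

theorem mem_D2 (a b : ℝ) (p : E) : p ∈ place 2 a b '' Dg ↔
    cs p = b - a ∧ a ≤ ct p ∧ ct p ≤ a + 1 := by
  constructor
  · rintro ⟨q, ⟨h1, h2, h3⟩, rfl⟩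
    simp only [place2, cs_add, ct_add, cs_pt, ct_pt, cs_rho, ct_rho]
    refine ⟨?_, ?_, ?_⟩ <;> linarith
  · rintro ⟨h1, h2, h3⟩
    refine ⟨pt (ct p - a) (b + 1 - cs p - ct p), ?_, ext_c ?_ ?_⟩
    · simp only [Dg, mem_ofPred_eq, cs_pt, ct_pt]
      refine ⟨?_, ?_, ?_⟩ <;> linarith
    · simp only [place2, cs_add, cs_pt, ct_pt, ct_rho, cs_rho]; ring
    · simp only [place2, ct_add, cs_pt, ct_pt, ct_rho, cs_rho]; ring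

/-- The isometry attached to a tile index. -/
noncomputable def φ (i : Idx) : E ≃ᵢ E := place i.1.1 i.1.2.1 i.1.2.2

theorem floor_ge (x : ℝ) (lo : ℤ) (h : (lo : ℝ) ≤ x) :
    ∃ a : ℤ, lo ≤ a ∧ (a : ℝ) ≤ x ∧ x ≤ a + 1 :=
  ⟨⌊x⌋, Int.le_floor.mpr h, Int.floor_le x, (Int.lt_floor_add_one x).le⟩

theorem ceil_le' (x : ℝ) (hi : ℤ) (h : x ≤ (hi : ℝ)) :
    ∃ a : ℤ, a + 1 ≤ hi ∧ (a : ℝ) ≤ x ∧ x ≤ a + 1 := by
  refine ⟨⌈x⌉ - 1, by have := Int.ceil_le.mpr h; omega, ?_, ?_⟩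
  · have := Int.ceil_lt_add_one x
    push_cast; linarith
  · have := Int.le_ceil x
    push_cast; linarith

theorem between (x : ℝ) (lo hi : ℤ) (hlh : lo + 1 ≤ hi) (h1 : (lo : ℝ) ≤ x) (h2 : x ≤ (hi : ℝ)) :
    ∃ a : ℤ, lo ≤ a ∧ a + 1 ≤ hi ∧ (a : ℝ) ≤ x ∧ x ≤ a + 1 := by
  rcases lt_or_eq_of_le h2 with h | h
  · refine ⟨⌊x⌋, Int.le_floor.mpr h1, Int.floor_lt.mpr h, Int.floor_le x,
      (Int.lt_floor_add_one x).le⟩
  · refine ⟨hi - 1, by omega, by omega, ?_, ?_⟩ <;> push_cast <;> linarith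

theorem cover : ⋃ i, φ i '' T = univ := by
  rw [eq_univ_iff_forall]
  intro p
  rw [mem_iUnion]
  rcases le_total 0 (ct p) with ht | ht
  · rcases le_total 1 (cs p) with hs | hs
    · obtain ⟨a, ha, a1, a2⟩ := floor_ge (cs p) 1 (by simpa using hs)
      obtain ⟨b, hb, b1, b2⟩ := floor_ge (ct p) 0 (by simpa using ht)
      exact ⟨⟨(0, a, b), Or.inl ⟨rfl, Or.inl ⟨ha, hb⟩⟩⟩, (mem_T0 _ _ _).mpr ⟨⟨a1, a2⟩, b1, b2⟩⟩
    · rcases le_total 1 (cs p + ct p) with hw | hw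
      · obtain ⟨a, ha, a1, a2⟩ := ceil_le' (cs p) 1 (by simpa using hs)
        obtain ⟨b, hb, b1, b2⟩ := floor_ge (cs p + ct p) 1 (by simpa using hw)
        exact ⟨⟨(1, a, b), Or.inr (Or.inl ⟨rfl, Or.inl ⟨by simp only; omega, hb⟩⟩)⟩,
          (mem_T1 _ _ _).mpr ⟨⟨a1, a2⟩, b1, b2⟩⟩
      · obtain ⟨a, ha, a1, a2⟩ := floor_ge (ct p) 0 (by simpa using ht)
        obtain ⟨b, hb, b1, b2⟩ := ceil_le' (cs p + ct p) 1 (by simpa using hw)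
        exact ⟨⟨(2, a, b), Or.inr (Or.inr ⟨rfl, Or.inl ⟨ha, by simp only; omega⟩⟩)⟩,
          (mem_T2 _ _ _).mpr ⟨⟨a1, a2⟩, b1, b2⟩⟩
  · rcases le_total (cs p) 0 with hs | hs
    · obtain ⟨a, ha, a1, a2⟩ := ceil_le' (cs p) 0 (by simpa using hs)
      obtain ⟨b, hb, b1, b2⟩ := ceil_le' (ct p) 0 (by simpa using ht)
      exact ⟨⟨(0, a, b), Or.inl ⟨rfl, Or.inr ⟨by simp only; omega, by simp only; omega⟩⟩⟩,
        (mem_T0 _ _ _).mpr ⟨⟨a1, a2⟩, b1, b2⟩⟩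
    · rcases le_total (cs p + ct p) 0 with hw | hw
      · obtain ⟨a, ha, a1, a2⟩ := floor_ge (cs p) 0 (by simpa using hs)
        obtain ⟨b, hb, b1, b2⟩ := ceil_le' (cs p + ct p) 0 (by simpa using hw)
        exact ⟨⟨(1, a, b), Or.inr (Or.inl ⟨rfl, Or.inr ⟨ha, by simp only; omega⟩⟩)⟩,
          (mem_T1 _ _ _).mpr ⟨⟨a1, a2⟩, b1, b2⟩⟩
      · obtain ⟨a, ha, a1, a2⟩ := ceil_le' (ct p) 0 (by simpa using ht)
        obtain ⟨b, hb, b1, b2⟩ := floor_ge (cs p + ct p) 0 (by simpa using hw)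
        exact ⟨⟨(2, a, b), Or.inr (Or.inr ⟨rfl, Or.inr ⟨by simp only; omega, hb⟩⟩)⟩,
          (mem_T2 _ _ _).mpr ⟨⟨a1, a2⟩, b1, b2⟩⟩

theorem int0 {a b : ℝ} {p : E} (h : p ∈ interior (place 0 a b '' T)) :
    (a < cs p ∧ cs p < a + 1) ∧ (b < ct p ∧ ct p < b + 1) := by
  have h1 := strict_of_interior 1 0 a (a + 1) (by simp)
    (fun q hq => by simpa using ((mem_T0 _ _ _).mp hq).1) h
  have h2 := strict_of_interior 0 1 b (b + 1) (by simp)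
    (fun q hq => by simpa using ((mem_T0 _ _ _).mp hq).2) h
  simp only [one_mul, zero_mul, add_zero, zero_add] at h1 h2
  exact ⟨h1, h2⟩

theorem int1 {a b : ℝ} {p : E} (h : p ∈ interior (place 1 a b '' T)) :
    (a < cs p ∧ cs p < a + 1) ∧ (b < cs p + ct p ∧ cs p + ct p < b + 1) := by
  have h1 := strict_of_interior 1 0 a (a + 1) (by simp)
    (fun q hq => by simpa using ((mem_T1 _ _ _).mp hq).1) h
  have h2 := strict_of_interior 1 1 b (b + 1) (by simp)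
    (fun q hq => by simpa using ((mem_T1 _ _ _).mp hq).2) h
  simp only [one_mul, zero_mul, add_zero] at h1 h2
  exact ⟨h1, h2⟩

theorem int2 {a b : ℝ} {p : E} (h : p ∈ interior (place 2 a b '' T)) :
    (a < ct p ∧ ct p < a + 1) ∧ (b < cs p + ct p ∧ cs p + ct p < b + 1) := by
  have h1 := strict_of_interior 0 1 a (a + 1) (by simp)
    (fun q hq => by simpa using ((mem_T2 _ _ _).mp hq).1) h
  have h2 := strict_of_interior 1 1 b (b + 1) (by simp)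
    (fun q hq => by simpa using ((mem_T2 _ _ _).mp hq).2) h
  simp only [one_mul, zero_mul, zero_add] at h1 h2
  exact ⟨h1, h2⟩

theorem int_eq {x : ℝ} {a a' : ℤ} (h : (a : ℝ) < x ∧ x < a + 1) (h' : (a' : ℝ) < x ∧ x < a' + 1) :
    a = a' := by
  have h1 : (a : ℝ) < a' + 1 := by linarith [h.1, h'.2]
  have h2 : (a' : ℝ) < a + 1 := by linarith [h.2, h'.1]
  have h1' : a < a' + 1 := by exact_mod_cast h1
  have h2' : a' < a + 1 := by exact_mod_cast h2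
  omega

theorem adm_real {k : Fin 3} {a b : ℤ} (h : Adm k a b) :
    (k = 0 ∧ (((1 : ℝ) ≤ a ∧ (0 : ℝ) ≤ b) ∨ ((a : ℝ) ≤ -1 ∧ (b : ℝ) ≤ -1))) ∨
    (k = 1 ∧ (((a : ℝ) ≤ 0 ∧ (1 : ℝ) ≤ b) ∨ ((0 : ℝ) ≤ a ∧ (b : ℝ) ≤ -1))) ∨
    (k = 2 ∧ (((0 : ℝ) ≤ a ∧ (b : ℝ) ≤ 0) ∨ ((a : ℝ) ≤ -1 ∧ (0 : ℝ) ≤ b))) := by
  unfold Adm at h
  exact_mod_cast h

theorem disj : Pairwise fun i j : Idx => Disjoint (interior (φ i '' T)) (interior (φ j '' T)) := by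
  rintro ⟨⟨k, a, b⟩, h⟩ ⟨⟨k', a', b'⟩, h'⟩ hne
  rw [Set.disjoint_left]
  intro p hp hp'
  apply hne
  simp only [φ] at hp hp'
  rcases adm_real h with ⟨rfl, g⟩ | ⟨rfl, g⟩ | ⟨rfl, g⟩ <;>
    rcases adm_real h' with ⟨rfl, g'⟩ | ⟨rfl, g'⟩ | ⟨rfl, g'⟩
  · obtain rfl := int_eq (int0 hp).1 (int0 hp').1
    obtain rfl := int_eq (int0 hp).2 (int0 hp').2
    rfl
  · obtain ⟨⟨u1, u2⟩, u3, u4⟩ := int0 hp
    obtain ⟨⟨v1, v2⟩, v3, v4⟩ := int1 hp'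
    exfalso
    rcases g with ⟨g1, g2⟩ | ⟨g1, g2⟩ <;> rcases g' with ⟨g3, g4⟩ | ⟨g3, g4⟩ <;> linarith
  · obtain ⟨⟨u1, u2⟩, u3, u4⟩ := int0 hp
    obtain ⟨⟨v1, v2⟩, v3, v4⟩ := int2 hp'
    exfalso
    rcases g with ⟨g1, g2⟩ | ⟨g1, g2⟩ <;> rcases g' with ⟨g3, g4⟩ | ⟨g3, g4⟩ <;> linarith
  · obtain ⟨⟨u1, u2⟩, u3, u4⟩ := int1 hp
    obtain ⟨⟨v1, v2⟩, v3, v4⟩ := int0 hp'
    exfalso
    rcases g with ⟨g1, g2⟩ | ⟨g1, g2⟩ <;> rcases g' with ⟨g3, g4⟩ | ⟨g3, g4⟩ <;> linarith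
  · obtain rfl := int_eq (int1 hp).1 (int1 hp').1
    obtain rfl := int_eq (int1 hp).2 (int1 hp').2
    rfl
  · obtain ⟨⟨u1, u2⟩, u3, u4⟩ := int1 hp
    obtain ⟨⟨v1, v2⟩, v3, v4⟩ := int2 hp'
    exfalso
    rcases g with ⟨g1, g2⟩ | ⟨g1, g2⟩ <;> rcases g' with ⟨g3, g4⟩ | ⟨g3, g4⟩ <;> linarith
  · obtain ⟨⟨u1, u2⟩, u3, u4⟩ := int2 hp
    obtain ⟨⟨v1, v2⟩, v3, v4⟩ := int0 hp'
    exfalso
    rcases g with ⟨g1, g2⟩ | ⟨g1, g2⟩ <;> rcases g' with ⟨g3, g4⟩ | ⟨g3, g4⟩ <;> linarith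
  · obtain ⟨⟨u1, u2⟩, u3, u4⟩ := int2 hp
    obtain ⟨⟨v1, v2⟩, v3, v4⟩ := int1 hp'
    exfalso
    rcases g with ⟨g1, g2⟩ | ⟨g1, g2⟩ <;> rcases g' with ⟨g3, g4⟩ | ⟨g3, g4⟩ <;> linarith
  · obtain rfl := int_eq (int2 hp).1 (int2 hp').1
    obtain rfl := int_eq (int2 hp).2 (int2 hp').2
    rfl

theorem coords_le (p : E) (R : ℝ) (h : ‖p‖ ≤ R) :
    |cs p| ≤ 2 * R ∧ |ct p| ≤ 2 * R ∧ |cs p + ct p| ≤ 2 * R := by
  have hn := norm_sq_eq p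
  have h0 := norm_nonneg p
  have hR : 0 ≤ 2 * R := by linarith
  have h2 : ‖p‖ ^ 2 ≤ R ^ 2 := by nlinarith
  refine ⟨abs_le_of_sq_le_sq ?_ hR, abs_le_of_sq_le_sq ?_ hR, abs_le_of_sq_le_sq ?_ hR⟩
  · nlinarith [sq_nonneg (cs p + 2 * ct p), sq_nonneg (cs p), sq_nonneg R]
  · nlinarith [sq_nonneg (2 * cs p + ct p), sq_nonneg (ct p), sq_nonneg R]
  · nlinarith [sq_nonneg (cs p - ct p), sq_nonneg (cs p + ct p), sq_nonneg R]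

theorem locFin (B : Set E) (hB : Bornology.IsBounded B) :
    {i : Idx | (φ i '' T ∩ B).Nonempty}.Finite := by
  obtain ⟨R, hR⟩ := hB.exists_norm_le
  obtain ⟨N, hN⟩ := exists_nat_ge (2 * R + 1)
  have hfin : ((univ : Set (Fin 3)) ×ˢ (Icc (-(N : ℤ)) N ×ˢ Icc (-(N : ℤ)) N)).Finite :=
    finite_univ.prod ((finite_Icc _ _).prod (finite_Icc _ _))
  refine (hfin.preimage Subtype.val_injective.injOn).subset ?_
  rintro ⟨⟨k, a, b⟩, h⟩ ⟨p, hp, hpB⟩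
  obtain ⟨c1, c2, c3⟩ := coords_le p R (hR p hpB)
  rw [abs_le] at c1 c2 c3
  simp only [φ] at hp
  have key : ∀ (x : ℝ) (c : ℤ), (-(2 * R) ≤ x ∧ x ≤ 2 * R) → ((c : ℝ) ≤ x ∧ x ≤ c + 1) →
      c ∈ Icc (-(N : ℤ)) N := by
    intro x c hx hc
    have e1 : (-(N : ℝ)) ≤ c := by linarith [hx.1, hc.2]
    have e2 : (c : ℝ) ≤ N := by linarith [hx.2, hc.1]
    exact ⟨by exact_mod_cast e1, by exact_mod_cast e2⟩
  refine ⟨mem_univ _, ?_⟩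
  fin_cases k
  · have := (mem_T0 _ _ _).mp hp
    exact ⟨key _ _ c1 this.1, key _ _ c2 this.2⟩
  · have := (mem_T1 _ _ _).mp hp
    exact ⟨key _ _ c1 this.1, key _ _ c3 this.2⟩
  · have := (mem_T2 _ _ _).mp hp
    exact ⟨key _ _ c2 this.1, key _ _ c3 this.2⟩

theorem mem_CA_CB (p : E) : p ∈ CA ∪ CB ↔
    ∃ n : ℤ, 1 ≤ n ∧ (U n (cs p) (ct p) ∨ Lw n (cs p) (ct p)) := by
  constructor
  · rintro (⟨q, h | h⟩ | ⟨q, h | h⟩)
    · exact ⟨2 * q + 1, by omega, Or.inl (by exact_mod_cast h)⟩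
    · exact ⟨2 * q + 2, by omega, Or.inr (by exact_mod_cast h)⟩
    · exact ⟨2 * q + 1, by omega, Or.inr (by exact_mod_cast h)⟩
    · exact ⟨2 * q + 2, by omega, Or.inl (by exact_mod_cast h)⟩
  · rintro ⟨n, hn, h⟩
    obtain ⟨q, hq | hq⟩ : ∃ q : ℕ, n = 2 * q + 1 ∨ n = 2 * q + 2 :=
      ⟨((n - 1) / 2).toNat, by omega⟩
    · subst hq
      rcases h with h | h
      · exact Or.inl ⟨q, Or.inl (by exact_mod_cast h)⟩
      · exact Or.inr ⟨q, Or.inl (by exact_mod_cast h)⟩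
    · subst hq
      rcases h with h | h
      · exact Or.inr ⟨q, Or.inr (by exact_mod_cast h)⟩
      · exact Or.inl ⟨q, Or.inr (by exact_mod_cast h)⟩

theorem marks_eq : ⋃ i, φ i '' Dg = CA ∪ CB := by
  ext p
  rw [mem_CA_CB, mem_iUnion]
  constructor
  · rintro ⟨⟨⟨k, a, b⟩, h⟩, hp⟩
    simp only [φ] at hp
    have hr := adm_real h
    simp only [Adm] at h
    simp only [U, Lw]
    rcases h with ⟨rfl, g⟩ | ⟨rfl, g⟩ | ⟨rfl, g⟩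
    · obtain ⟨h1, h2, h3⟩ := (mem_D0 _ _ _).mp hp
      rcases g with ⟨g1, g2⟩ | ⟨g1, g2⟩
      · have g1' : (1 : ℝ) ≤ a := by exact_mod_cast g1
        have g2' : (0 : ℝ) ≤ b := by exact_mod_cast g2
        refine ⟨a + b, by omega, Or.inl (Or.inr (Or.inr ⟨?_, ?_, ?_⟩))⟩ <;> push_cast <;> linarith
      · have g1' : (a : ℝ) ≤ -1 := by exact_mod_cast g1
        have g2' : (b : ℝ) ≤ -1 := by exact_mod_cast g2
        refine ⟨-(a + b + 1), by omega, Or.inr (Or.inr (Or.inr ⟨?_, ?_, ?_⟩))⟩ <;> push_cast <;>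
          linarith
    · obtain ⟨h1, h2, h3⟩ := (mem_D1 _ _ _).mp hp
      rcases g with ⟨g1, g2⟩ | ⟨g1, g2⟩
      · have g1' : (a : ℝ) ≤ 0 := by exact_mod_cast g1
        have g2' : (1 : ℝ) ≤ b := by exact_mod_cast g2
        refine ⟨b - a, by omega, Or.inl (Or.inr (Or.inl ⟨?_, ?_, ?_⟩))⟩ <;> push_cast <;> linarith
      · have g1' : (0 : ℝ) ≤ a := by exact_mod_cast g1
        have g2' : (b : ℝ) ≤ -1 := by exact_mod_cast g2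
        refine ⟨a - b, by omega, Or.inr (Or.inr (Or.inl ⟨?_, ?_, ?_⟩))⟩ <;> push_cast <;> linarith
    · obtain ⟨h1, h2, h3⟩ := (mem_D2 _ _ _).mp hp
      rcases g with ⟨g1, g2⟩ | ⟨g1, g2⟩
      · have g1' : (0 : ℝ) ≤ a := by exact_mod_cast g1
        have g2' : (b : ℝ) ≤ 0 := by exact_mod_cast g2
        refine ⟨1 + a - b, by omega, Or.inl (Or.inl ⟨?_, ?_, ?_⟩)⟩ <;> push_cast <;> linarith
      · have g1' : (a : ℝ) ≤ -1 := by exact_mod_cast g1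
        have g2' : (0 : ℝ) ≤ b := by exact_mod_cast g2
        refine ⟨b - a, by omega, Or.inr (Or.inl ⟨?_, ?_, ?_⟩)⟩ <;> push_cast <;> linarith
  · rintro ⟨n, hn, (⟨h1, h2, h3⟩ | ⟨h1, h2, h3⟩ | ⟨h1, h2, h3⟩) |
      (⟨h1, h2, h3⟩ | ⟨h1, h2, h3⟩ | ⟨h1, h2, h3⟩)⟩
    · obtain ⟨a, a1, a2, a3, a4⟩ := between (ct p) 0 n (by omega) (by simpa using h2) h3
      refine ⟨⟨(2, a, 1 + a - n), Or.inr (Or.inr ⟨rfl, Or.inl ⟨a1, by simp only; omega⟩⟩)⟩,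
        (mem_D2 _ _ _).mpr ⟨?_, a3, a4⟩⟩
      push_cast; linarith
    · obtain ⟨a, a1, a2, a3, a4⟩ := between (cs p) (1 - n) 1 (by omega) (by simpa using h2)
        (by simpa using h3)
      refine ⟨⟨(1, a, a + n), Or.inr (Or.inl ⟨rfl, Or.inl ⟨by simp only; omega,
        by simp only; omega⟩⟩)⟩, (mem_D1 _ _ _).mpr ⟨?_, a3, a4⟩⟩
      push_cast; linarith
    · obtain ⟨a, a1, a2, a3, a4⟩ := between (cs p) 1 (n + 1) (by omega) (by simpa using h2)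
        (by simpa using h3)
      refine ⟨⟨(0, a, n - a), Or.inl ⟨rfl, Or.inl ⟨a1, by simp only; omega⟩⟩⟩,
        (mem_D0 _ _ _).mpr ⟨?_, a3, a4⟩⟩
      push_cast; linarith
    · obtain ⟨a, a1, a2, a3, a4⟩ := between (ct p) (-n) 0 (by omega) (by simpa using h2)
        (by simpa using h3)
      refine ⟨⟨(2, a, a + n), Or.inr (Or.inr ⟨rfl, Or.inr ⟨by simp only; omega,
        by simp only; omega⟩⟩)⟩, (mem_D2 _ _ _).mpr ⟨?_, a3, a4⟩⟩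
      push_cast; linarith
    · obtain ⟨a, a1, a2, a3, a4⟩ := between (cs p) 0 n (by omega) (by simpa using h2) h3
      refine ⟨⟨(1, a, a - n), Or.inr (Or.inl ⟨rfl, Or.inr ⟨a1, by simp only; omega⟩⟩)⟩,
        (mem_D1 _ _ _).mpr ⟨?_, a3, a4⟩⟩
      push_cast; linarith
    · obtain ⟨a, a1, a2, a3, a4⟩ := between (cs p) (-n) 0 (by omega) (by simpa using h2)
        (by simpa using h3)
      refine ⟨⟨(0, a, -n - a - 1), Or.inl ⟨rfl, Or.inr ⟨by simp only; omega,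
        by simp only; omega⟩⟩⟩, (mem_D0 _ _ _).mpr ⟨?_, a3, a4⟩⟩
      push_cast; linarith

end Pool.Agent.MP_361b6b_co
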