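import Mathlib.Analysis.Convex.GaugeRescale
import Pool.Agent.MP_361b6b_co.Tiles

set_option autoImplicit false

namespace Pool.Agent.MP_361b6b_co

open Set

theorem T_closed : IsClosed T := by
  unfold T
  simp only [ofPred_and]
  refine IsClosed.inter ?_ (IsClosed.inter ?_ (IsClosed.inter ?_ ?_)) <;>
    exact isClosed_le (by fun_prop) (by fun_prop)

theorem T_convex : Convex ℝ T := by
  rintro x ⟨x1, x2, x3, x4⟩ y ⟨y1, y2, y3, y4⟩ a b ha hb hab
  simp only [T, mem_ofPred_eq, cs_add, ct_add, cs_smul, ct_smul]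
  refine ⟨?_, ?_, ?_, ?_⟩ <;> nlinarith

theorem T_bounded : Bornology.IsBounded T := by
  rw [isBounded_iff_forall_norm_le]
  refine ⟨2, ?_⟩
  rintro x ⟨x1, x2, x3, x4⟩
  have := norm_sq_eq x
  have h2 : ‖x‖ ^ 2 ≤ 2 ^ 2 := by nlinarith
  exact (abs_le_of_sq_le_sq' h2 (by norm_num)).2

theorem T_interior : (interior T).Nonempty := by
  refine ⟨pt (1 / 2) (1 / 2), ?_⟩
  have ho : IsOpen {p : E | 0 < cs p ∧ cs p < 1 ∧ 0 < ct p ∧ ct p < 1} := by
    simp only [ofPred_and]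
    refine IsOpen.inter ?_ (IsOpen.inter ?_ (IsOpen.inter ?_ ?_)) <;>
      exact isOpen_lt (by fun_prop) (by fun_prop)
  refine interior_maximal (s := T) ?_ ho ?_
  · rintro p ⟨h1, h2, h3, h4⟩
    exact ⟨h1.le, h2.le, h3.le, h4.le⟩
  simp only [mem_ofPred_eq, cs_pt, ct_pt]
  norm_num

theorem T_disk : Nonempty (T ≃ₜ Metric.closedBall (0 : E) 1) := by
  obtain ⟨h, -, h2, -⟩ :=
    exists_homeomorph_image_interior_closure_frontier_eq_unitBall T_convex T_interior T_bounded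
  rw [T_closed.closure_eq] at h2
  exact ⟨(h.image T).trans (Homeomorph.setCongr h2)⟩

theorem Dg_sub : Dg ⊆ T := by
  rintro p ⟨h1, h2, h3⟩
  exact ⟨h2, h3, by linarith, by linarith⟩

theorem Dg_arc : ∃ γ : unitInterval → E, Continuous γ ∧ Function.Injective γ ∧ range γ = Dg := by
  refine ⟨fun x => pt x (1 - x), ?_, ?_, ?_⟩
  · have : (fun x : unitInterval => pt x (1 - x)) =
        fun x : unitInterval => (x : ℝ) • pt 1 0 + (1 - (x : ℝ)) • pt 0 1 :=
      funext fun x => pt_eq _ _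
    rw [this]
    fun_prop
  · intro x y hxy
    have := congrArg cs hxy
    simp only [cs_pt] at this
    exact Subtype.ext this
  · ext p
    constructor
    · rintro ⟨x, rfl⟩
      simp only [Dg, mem_ofPred_eq, cs_pt, ct_pt]
      exact ⟨by ring, x.2.1, x.2.2⟩
    · rintro ⟨h1, h2, h3⟩
      refine ⟨⟨cs p, h2, h3⟩, ext_c ?_ ?_⟩
      · simp
      · simp only [ct_pt]; linarith

theorem far_pair {p q : E} (hp : p ∈ T) (hq : q ∈ T) (h : dist p q ^ 2 = 3) :
    (p = pt 0 0 ∧ q = pt 1 1) ∨ (p = pt 1 1 ∧ q = pt 0 0) := by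
  obtain ⟨p1, p2, p3, p4⟩ := hp
  obtain ⟨q1, q2, q3, q4⟩ := hq
  rw [dist_sq_eq] at h
  set x := cs p - cs q with hx
  set y := ct p - ct q with hy
  have x1 : -1 ≤ x := by linarith
  have x2 : x ≤ 1 := by linarith
  have y1 : -1 ≤ y := by linarith
  have y2 : y ≤ 1 := by linarith
  have hx2 : x ^ 2 ≤ 1 := by nlinarith
  have hy2 : y ^ 2 ≤ 1 := by nlinarith
  have hxy : x = y := by nlinarith [sq_nonneg (x - y)]
  have hx3 : (x - 1) * (x + 1) = 0 := by nlinarith
  rcases mul_eq_zero.mp hx3 with h1 | h1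
  · right
    constructor <;> apply ext_c <;> simp only [cs_pt, ct_pt] <;> linarith
  · left
    constructor <;> apply ext_c <;> simp only [cs_pt, ct_pt] <;> linarith

theorem mem_Dg_iff (p : E) : p ∈ Dg ↔ p ∈ T ∧ dist p (pt 0 0) = dist p (pt 1 1) := by
  constructor
  · intro h
    refine ⟨Dg_sub h, dist_eq_of_sq ?_⟩
    obtain ⟨h1, -, -⟩ := h
    simp only [dist_sq_eq, cs_pt, ct_pt]
    have : ct p = 1 - cs p := by linarith
    rw [this]; ring
  · rintro ⟨⟨h1, h2, h3, h4⟩, h⟩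
    have h' : dist p (pt 0 0) ^ 2 = dist p (pt 1 1) ^ 2 := by rw [h]
    simp only [dist_sq_eq, cs_pt, ct_pt] at h'
    exact ⟨by nlinarith, h1, h2⟩

theorem Dg_mapsTo (g : E ≃ᵢ E) (hg : g '' T = T) : g '' Dg ⊆ Dg := by
  rintro _ ⟨p, hp, rfl⟩
  have hT : ∀ x ∈ T, g x ∈ T := fun x hx => hg ▸ mem_image_of_mem g hx
  have h0 : pt 0 0 ∈ T := by simp [T]
  have h1 : pt 1 1 ∈ T := by simp [T]
  have hd : dist (g (pt 0 0)) (g (pt 1 1)) ^ 2 = 3 := by
    rw [g.dist_eq, dist_sq_eq]; simp only [cs_pt, ct_pt]; norm_num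
  rw [mem_Dg_iff] at hp ⊢
  refine ⟨hT _ hp.1, ?_⟩
  have e := hp.2
  rw [← g.dist_eq p (pt 0 0), ← g.dist_eq p (pt 1 1)] at e
  rcases far_pair (hT _ h0) (hT _ h1) hd with ⟨a, b⟩ | ⟨a, b⟩
  · rw [a, b] at e; exact e
  · rw [a, b] at e; exact e.symm

theorem Dg_invariant (g : E ≃ᵢ E) (hg : g '' T = T) : g '' Dg = Dg := by
  refine Subset.antisymm (Dg_mapsTo g hg) ?_
  have hs : g.symm '' T = T := by
    conv_lhs => rw [← hg]
    rw [image_image]; simp
  intro p hp
  exact ⟨g.symm p, Dg_mapsTo g.symm hs (mem_image_of_mem _ hp), by simp⟩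

theorem place_shift (k : Fin 3) (a b a' b' : ℝ) :
    ∃ v : E, ∀ p, place k a b p + v = place k a' b' p := by
  fin_cases k
  · exact ⟨pt a' b' - pt a b, fun p => by
      change place 0 a b p + _ = place 0 a' b' p
      rw [place0, place0]; abel⟩
  · exact ⟨pt (a' + 1) (b' - a' - 1) - pt (a + 1) (b - a - 1), fun p => by
      change place 1 a b p + _ = place 1 a' b' p
      rw [place1, place1]; abel⟩
  · exact ⟨pt (b' + 1 - a') a' - pt (b + 1 - a) a, fun p => by
      change place 2 a b p + _ = place 2 a' b' p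
      rw [place2, place2]; abel⟩

theorem aspect_eq {k k' : Fin 3} {a b a' b' : ℝ} {v : E}
    (h : (fun p => p + v) '' (place k a b '' T) = place k' a' b' '' T) : k = k' := by
  have hm : ∀ p ∈ place k a b '' T, p + v ∈ place k' a' b' '' T := fun p hp =>
    h ▸ mem_image_of_mem (fun p => p + v) hp
  have h3 : ∀ m : Fin 3, m = 0 ∨ m = 1 ∨ m = 2 := by decide
  have hk := h3 k
  have hk' := h3 k'
  rcases hk with rfl | rfl | rfl
  · have u := hm (pt a b) ((mem_T0 _ _ _).mpr (by simp))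
    have w := hm (pt (a + 1) (b + 1)) ((mem_T0 _ _ _).mpr (by simp))
    rcases hk' with rfl | rfl | rfl
    · rfl
    · rw [mem_T1] at u w
      simp only [cs_add, ct_add, cs_pt, ct_pt] at u w
      exfalso; linarith [u.2.1, w.2.2]
    · rw [mem_T2] at u w
      simp only [cs_add, ct_add, cs_pt, ct_pt] at u w
      exfalso; linarith [u.2.1, w.2.2]
  · have u := hm (pt (a + 1) (b - a - 1)) ((mem_T1 _ _ _).mpr (by
      simp only [cs_pt, ct_pt]; refine ⟨⟨?_, ?_⟩, ?_, ?_⟩ <;> linarith))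
    have w := hm (pt a (b + 1 - a)) ((mem_T1 _ _ _).mpr (by
      simp only [cs_pt, ct_pt]; refine ⟨⟨?_, ?_⟩, ?_, ?_⟩ <;> linarith))
    rcases hk' with rfl | rfl | rfl
    · rw [mem_T0] at u w
      simp only [cs_add, ct_add, cs_pt, ct_pt] at u w
      exfalso; linarith [u.2.1, w.2.2]
    · rfl
    · rw [mem_T2] at u w
      simp only [cs_add, ct_add, cs_pt, ct_pt] at u w
      exfalso; linarith [u.1.1, w.1.2]
  · have u := hm (pt (b - a - 1) (a + 1)) ((mem_T2 _ _ _).mpr (by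
      simp only [cs_pt, ct_pt]; refine ⟨⟨?_, ?_⟩, ?_, ?_⟩ <;> linarith))
    have w := hm (pt (b + 1 - a) a) ((mem_T2 _ _ _).mpr (by
      simp only [cs_pt, ct_pt]; refine ⟨⟨?_, ?_⟩, ?_, ?_⟩ <;> linarith))
    rcases hk' with rfl | rfl | rfl
    · rw [mem_T0] at u w
      simp only [cs_add, ct_add, cs_pt, ct_pt] at u w
      exfalso; linarith [u.1.1, w.1.2]
    · rw [mem_T1] at u w
      simp only [cs_add, ct_add, cs_pt, ct_pt] at u w
      exfalso; linarith [u.1.1, w.1.2]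
    · rfl

end Pool.Agent.MP_361b6b_co
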